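import Mathlib
import Pool.Agent.MP_0f290c_co.Sum

set_option autoImplicit false

namespace Pool.Agent.Results.MP_0f290c_co.AbelianGen

/-- A group generated by at most κ abelian subgroups, κ infinite, is the automorphism group of a
graph with at most κ edge-orbits. -/
theorem result (κ : Cardinal.{0}) (hκ : Cardinal.aleph0 ≤ κ) (G : Type) [Group G]
    (𝒜 : Set (Subgroup G)) (hcard : Cardinal.mk 𝒜 ≤ κ)
    (habel : ∀ B ∈ 𝒜, ∀ x ∈ B, ∀ y ∈ B, x * y = y * x) (hgen : sSup 𝒜 = ⊤) :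
    ∃ (V : Type) (X : SimpleGraph V), Nonempty (G ≃* SimpleGraph.Iso X X) ∧
      ∃ S : Set (Sym2 V), S ⊆ X.edgeSet ∧
        (∀ e ∈ X.edgeSet, ∃ s ∈ S, ∃ φ : SimpleGraph.Iso X X, Sym2.map (⇑φ) s = e) ∧
        Cardinal.mk S ≤ κ :=
  Pool.Agent.MP_0f290c_co.rep_abelian_gen hκ 𝒜 hcard habel hgen

end Pool.Agent.Results.MP_0f290c_co.AbelianGen
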