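import Mathlib
import Pool.Agent.MP_0f290c_co.LB
import Pool.Agent.MP_0f290c_co.Extra

set_option autoImplicit false

namespace Pool.Agent.Results.MP_0f290c_co.Extraspecial

open Pool.Agent.MP_0f290c_co

/-- For every prime p and every regular uncountable cardinal lam there is an extraspecial p-group
of cardinality lam such that every graph representing it has at least lam edge-orbits. -/
theorem result (p : ℕ) (hp : p.Prime) (lam : Cardinal.{0}) (hreg : lam.IsRegular)
    (hunc : Cardinal.aleph0 < lam) :
    ∃ (G : Type) (_ : Group G),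
      Cardinal.mk G = lam ∧
      Nat.card (Subgroup.center G) = p ∧
      commutator G = Subgroup.center G ∧
      (∀ g : G, g ^ p ∈ Subgroup.center G) ∧
      ∀ (V : Type) (X : SimpleGraph V),
        Nonempty (G ≃* SimpleGraph.Iso X X) →
        ∀ S : Set (Sym2 V), S ⊆ X.edgeSet →
          (∀ e ∈ X.edgeSet, ∃ s ∈ S, ∃ φ : SimpleGraph.Iso X X, Sym2.map (⇑φ) s = e) →
          lam ≤ Cardinal.mk S := by
  haveI : Fact p.Prime := ⟨hp⟩
  haveI : NoMaxOrder lam.ord.ToType := Cardinal.noMaxOrder hunc.le
  have hΛ : Cardinal.mk lam.ord.ToType = lam := Cardinal.mk_ord_toType lam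
  haveI : Infinite lam.ord.ToType := by
    rw [Cardinal.infinite_iff, hΛ]; exact hunc.le
  have hI : ∀ x : lam.ord.ToType, Cardinal.mk (Set.Iio x) < lam := fun x => by
    simpa using Cardinal.mk_Iio_lt x
  have hF : Cardinal.mk (ZMod p) ≤ lam := (Cardinal.mk_le_aleph0 (α := ZMod p)).trans hunc.le
  refine ⟨EG lam.ord.ToType (ZMod p), inferInstance, ?_, ?_, EG.commutator_eq, ?_, ?_⟩
  · let e : EG lam.ord.ToType (ZMod p) ≃ (lam.ord.ToType →₀ ZMod p) × ZMod p :=
      { toFun := fun g => (g.v, g.a), invFun := fun q => ⟨q.1, q.2⟩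
        left_inv := fun _ => rfl, right_inv := fun _ => rfl }
    rw [e.cardinal_eq, Cardinal.mk_prod, Cardinal.lift_id, Cardinal.lift_id,
      Cardinal.mk_finsupp_of_infinite, hΛ, max_eq_left hF]
    exact Cardinal.mul_eq_left hunc.le hF (Cardinal.mk_ne_zero _)
  · let e : Subgroup.center (EG lam.ord.ToType (ZMod p)) ≃ ZMod p :=
      { toFun := fun g => g.1.a, invFun := fun a => ⟨⟨0, a⟩, (EG.mem_center _).2 rfl⟩
        left_inv := fun g => by
          apply Subtype.ext
          ext1
          · exact ((EG.mem_center _).1 g.2).symm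
          · rfl
        right_inv := fun _ => rfl }
    rw [Nat.card_congr e, Nat.card_zmod]
  · intro g
    rw [EG.mem_center, EG.pow_v]
    ext x
    simp
  · rintro V X ⟨ψ⟩ S - hS
    refine lb (⟨0, 1⟩ : EG lam.ord.ToType (ZMod p)) ?_ (EG.central 1) ?_ lam hunc.le
      (fun ι H a hι hz => key_group p hreg hunc hΛ hI ι H a hι hz) V X ψ S hS
    · intro h
      exact one_ne_zero (congrArg EG.a h)
    · intro x y w
      rw [EG.comm_eq]; exact EG.central _ _

end Pool.Agent.Results.MP_0f290c_co.Extraspecial
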